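import Pool.Agent.N295.SR.Stm

/-!
# SR/12 CYL: an eigenfunction of a sphere of revolution in Mercator coordinates

For `MP_c7f82c_an` (project SR of helper295). The `C²` function `φ(merc t θ)` is a bounded periodic
solution on the cylinder, and its Fourier modes of order `k` with `k² > lam ρM` vanish (S_MODE).
-/

set_option autoImplicit false

open MeasureTheory Set Real

namespace Pool.Agent.N163.SR

open Pool.Agent.N295.SR
open Pool.Agent.Y291.DB (Sol um)

theorem merc_per (t θ : ℝ) : merc t (θ + 2 * π) = merc t θ := by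
  unfold merc
  rw [Real.cos_add_two_pi, Real.sin_add_two_pi]

theorem merc_norm (t θ : ℝ) : ‖merc t θ‖ = 1 := by
  have hc : 0 < cosh t := Real.cosh_pos t
  have h : ‖merc t θ‖ ^ 2 = 1 := by
    rw [EuclideanSpace.norm_sq_eq, Fin.sum_univ_three]
    have e0 : merc t θ 0 = cos θ / cosh t := rfl
    have e1 : merc t θ 1 = sin θ / cosh t := rfl
    have e2 : merc t θ 2 = tanh t := rfl
    rw [e0, e1, e2, Real.tanh_eq_sinh_div_cosh]
    simp only [Real.norm_eq_abs, sq_abs, div_pow]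
    rw [← add_div, ← add_div, div_eq_one_iff_eq (by positivity)]
    rw [Real.cosh_sq t]
    nlinarith [Real.sin_sq_add_cos_sq θ]
  have h0 := norm_nonneg (merc t θ)
  nlinarith

theorem exp_abs_le (t : ℝ) : Real.exp |t| ≤ 2 * cosh t := by
  rw [← Real.cosh_abs t, Real.cosh_eq]
  have := Real.exp_pos (-|t|)
  linarith

/-- the potential -/
theorem pot_bounds (ρ : ℝ → ℝ) (ρM lam : ℝ) (hp : ∀ z, 0 < ρ z) (hM : ∀ z, ρ z ≤ ρM)
    (hl : 0 < lam) (t : ℝ) : 0 ≤ pot ρ lam t ∧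
      pot ρ lam t ≤ 4 * lam * ρM * Real.exp (-2 * |t|) ∧ pot ρ lam t ≤ lam * ρM := by
  have hc : 0 < cosh t := Real.cosh_pos t
  have hc1 : 1 ≤ cosh t := Real.one_le_cosh t
  have hr := hp (tanh t)
  have hrM := hM (tanh t)
  have hρM : 0 < ρM := hr.trans_le hrM
  unfold pot
  refine ⟨by positivity, ?_, ?_⟩
  · have h1 : ρ (tanh t) / cosh t ^ 2 ≤ 4 * ρM * Real.exp (-2 * |t|) := by
      rw [div_le_iff₀ (by positivity)]
      have h2 := exp_abs_le t
      have h3 : Real.exp (-2 * |t|) * (Real.exp |t|) ^ 2 = 1 := by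
        rw [← Real.exp_nat_mul, ← Real.exp_add]
        simp
      have h4 : (Real.exp |t|) ^ 2 ≤ 4 * cosh t ^ 2 := by
        have := pow_le_pow_left₀ (Real.exp_pos _).le h2 2
        linarith
      have h5 : 1 ≤ Real.exp (-2 * |t|) * (4 * cosh t ^ 2) := by
        rw [← h3]
        exact mul_le_mul_of_nonneg_left h4 (Real.exp_pos _).le
      calc ρ (tanh t) ≤ ρM * 1 := by linarith
        _ ≤ ρM * (Real.exp (-2 * |t|) * (4 * cosh t ^ 2)) :=
            mul_le_mul_of_nonneg_left h5 hρM.le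
        _ = 4 * ρM * Real.exp (-2 * |t|) * cosh t ^ 2 := by ring
    calc lam * (ρ (tanh t) / cosh t ^ 2) ≤ lam * (4 * ρM * Real.exp (-2 * |t|)) :=
          mul_le_mul_of_nonneg_left h1 hl.le
      _ = _ := by ring
  · refine mul_le_mul_of_nonneg_left ?_ hl.le
    rw [div_le_iff₀ (by positivity)]
    have : 1 ≤ cosh t ^ 2 := one_le_pow₀ hc1
    nlinarith

/-- the potential is continuous -/
theorem pot_cont (ρ : ℝ → ℝ) (lam : ℝ) (hc : Continuous ρ) : Continuous (pot ρ lam) := by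
  have htanh : Continuous Real.tanh := by
    have h : Real.tanh = fun x => Real.sinh x / Real.cosh x := by
      funext x
      exact Real.tanh_eq_sinh_div_cosh x
    rw [h]
    exact Real.continuous_sinh.div Real.continuous_cosh fun x => (Real.cosh_pos x).ne'
  unfold pot
  exact continuous_const.mul ((hc.comp htanh).div (Real.continuous_cosh.pow 2)
    fun t => (by have := Real.cosh_pos t; positivity))

/-- The derivatives of a `C²` solution. -/
theorem sol_of (ρ : ℝ → ℝ) (lam : ℝ) (φ : E3 → ℝ) (hc : Continuous ρ) (h : Eigen ρ lam φ) :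
    ∃ φx φxx φy φyy : ℝ → ℝ → ℝ, Sol (pot ρ lam) (fun t θ => φ (merc t θ)) φx φxx φy φyy := by
  have hs := h.smooth
  have heq := h.eq
  set ψ : ℝ × ℝ → ℝ := fun z => φ (merc z.1 z.2) with hψ
  have key : ∀ (g : ℝ × ℝ → ℝ) (v : ℝ × ℝ), ContDiff ℝ 1 g → Continuous fun p => fderiv ℝ g p v :=
    fun g v hg => (hg.continuous_fderiv one_ne_zero).clm_apply continuous_const
  have key2 : ∀ v : ℝ × ℝ, ContDiff ℝ 1 fun p => fderiv ℝ ψ p v := fun v =>
    (hs.fderiv_right (m := 1) (by norm_num)).clm_apply contDiff_const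
  have dX : ∀ (g : ℝ × ℝ → ℝ), Differentiable ℝ g → ∀ x y : ℝ,
      HasDerivAt (fun t => g (t, y)) (fderiv ℝ g (x, y) (1, 0)) x := by
    intro g hg x y
    have h1 : HasDerivAt (fun t : ℝ => ((t, y) : ℝ × ℝ)) (1, 0) x :=
      (hasDerivAt_id x).prodMk (hasDerivAt_const x y)
    exact (hg (x, y)).hasFDerivAt.comp_hasDerivAt x h1
  have dY : ∀ (g : ℝ × ℝ → ℝ), Differentiable ℝ g → ∀ x y : ℝ,
      HasDerivAt (fun t => g (x, t)) (fderiv ℝ g (x, y) (0, 1)) y := by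
    intro g hg x y
    have h1 : HasDerivAt (fun t : ℝ => ((x, t) : ℝ × ℝ)) (0, 1) y :=
      (hasDerivAt_const y x).prodMk (hasDerivAt_id y)
    exact (hg (x, y)).hasFDerivAt.comp_hasDerivAt y h1
  have hd0 : Differentiable ℝ ψ := hs.differentiable two_ne_zero
  have hd1 : ∀ v, Differentiable ℝ fun p => fderiv ℝ ψ p v := fun v =>
    (key2 v).differentiable one_ne_zero
  refine ⟨fun x y => fderiv ℝ ψ (x, y) (1, 0),
    fun x y => fderiv ℝ (fun p => fderiv ℝ ψ p (1, 0)) (x, y) (1, 0),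
    fun x y => fderiv ℝ ψ (x, y) (0, 1),
    fun x y => fderiv ℝ (fun p => fderiv ℝ ψ p (0, 1)) (x, y) (0, 1), ?_⟩
  refine ⟨pot_cont ρ lam hc, ?_, ?_, ?_, ?_, ?_, ?_, ?_, ?_, ?_, ?_⟩
  · exact hs.continuous
  · exact key ψ (1, 0) (hs.of_le (by norm_num))
  · exact key _ (1, 0) (key2 (1, 0))
  · exact key ψ (0, 1) (hs.of_le (by norm_num))
  · exact key _ (0, 1) (key2 (0, 1))
  · exact fun x y => dX ψ hd0 x y
  · exact fun x y => dX _ (hd1 (1, 0)) x y
  · exact fun x y => dY ψ hd0 x y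
  · exact fun x y => dY _ (hd1 (0, 1)) x y
  · intro x y
    have h1 := heq x y
    have e1 : iteratedDeriv 2 (fun t => φ (merc t y)) x =
        fderiv ℝ (fun p => fderiv ℝ ψ p (1, 0)) (x, y) (1, 0) := by
      rw [iteratedDeriv_succ, iteratedDeriv_one]
      have h2 : deriv (fun t => φ (merc t y)) = fun t => fderiv ℝ ψ (t, y) (1, 0) :=
        funext fun t => (dX ψ hd0 t y).deriv
      rw [h2]
      exact (dX _ (hd1 (1, 0)) x y).deriv
    have e2 : iteratedDeriv 2 (fun θ => φ (merc x θ)) y =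
        fderiv ℝ (fun p => fderiv ℝ ψ p (0, 1)) (x, y) (0, 1) := by
      rw [iteratedDeriv_succ, iteratedDeriv_one]
      have h2 : deriv (fun θ => φ (merc x θ)) = fun t => fderiv ℝ ψ (x, t) (0, 1) :=
        funext fun t => (dY ψ hd0 x t).deriv
      rw [h2]
      exact (dY _ (hd1 (0, 1)) x y).deriv
    rw [e1, e2] at h1
    show fderiv ℝ (fun p => fderiv ℝ ψ p (1, 0)) (x, y) (1, 0) +
      fderiv ℝ (fun p => fderiv ℝ ψ p (0, 1)) (x, y) (0, 1) = -(pot ρ lam x * φ (merc x y))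
    linarith

/-- **CYL.** -/
theorem CYLE : S_MODE → ∀ (ρ : ℝ → ℝ) (ρM lam : ℝ) (φ : E3 → ℝ), Continuous ρ → (∀ z, 0 < ρ z) →
    (∀ z, ρ z ≤ ρM) → Eigen ρ lam φ → ∃ (K : ℕ) (φx φxx φy φyy : ℝ → ℝ → ℝ),
    (K : ℝ) ≤ Real.sqrt (4 * lam * ρM) ∧
    Cyl (pot ρ lam) K (fun t θ => φ (merc t θ)) φx φxx φy φyy ∧ (∀ t, 0 ≤ pot ρ lam t) ∧
    (∀ t, pot ρ lam t ≤ 4 * lam * ρM * Real.exp (-2 * |t|)) ∧ ∀ t, pot ρ lam t ≤ lam * ρM := by
  intro hmode ρ ρM lam φ hc hp hM h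
  have hl := h.pos
  have hb := pot_bounds ρ ρM lam hp hM hl
  obtain ⟨φx, φxx, φy, φyy, hsol⟩ := sol_of ρ lam φ hc h
  have hper : ∀ x y, (fun t θ => φ (merc t θ)) x (y + 2 * π) = (fun t θ => φ (merc t θ)) x y := by
    intro x y
    show φ (merc x (y + 2 * π)) = φ (merc x y)
    rw [merc_per]
  have hbdd : ∃ B, ∀ x y, |(fun t θ => φ (merc t θ)) x y| ≤ B := by
    obtain ⟨B, hB⟩ := (isCompact_sphere (0 : E3) 1).exists_bound_of_continuousOn h.cont
    refine ⟨B, fun x y => ?_⟩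
    have := hB (merc x y) (by rw [mem_sphere_zero_iff_norm]; exact merc_norm x y)
    simpa [Real.norm_eq_abs] using this
  have hρM : 0 < ρM := (hp 0).trans_le (hM 0)
  refine ⟨⌊Real.sqrt (4 * lam * ρM)⌋₊, φx, φxx, φy, φyy, Nat.floor_le (Real.sqrt_nonneg _),
    ⟨hsol, hper, hbdd, ?_⟩, fun t => (hb t).1, fun t => (hb t).2.1, fun t => (hb t).2.2⟩
  intro x k hk
  refine hmode (pot ρ lam) _ φx φxx φy φyy (lam * ρM) hsol hper hbdd (fun x => (hb x).2.2) k ?_ x
  have h1 : Real.sqrt (4 * lam * ρM) < |(k : ℝ)| := by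
    have h2 := Nat.lt_floor_add_one (Real.sqrt (4 * lam * ρM))
    have h3 : ((⌊Real.sqrt (4 * lam * ρM)⌋₊ : ℤ) : ℝ) + 1 ≤ ((|k| : ℤ) : ℝ) := by
      exact_mod_cast hk
    rw [Int.cast_abs] at h3
    push_cast at h3
    linarith
  have h4 : 4 * lam * ρM < (k : ℝ) ^ 2 := by
    rw [← sq_abs, ← Real.sq_sqrt (show 0 ≤ 4 * lam * ρM by positivity)]
    exact pow_lt_pow_left₀ h1 (Real.sqrt_nonneg _) two_ne_zero
  have : 0 < lam * ρM := by positivity
  linarith

end Pool.Agent.N163.SR
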